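import Pool.Agent.Y990.SH.Stm

set_option autoImplicit false

/-!
Project SH (owner helper990), job SH-POS: translated copies of a dense part of a grid.
-/

namespace Pool.Agent.Y884.SH

open Pool.Agent.Y990.SH Finset

open scoped Classical in
/-- greedy choice -/
theorem greedy {V : Type} (Q : Finset V) (Bad : V → V → Prop) (M : ℕ)
    (hM : ∀ y, (Q.filter (fun x => Bad y x)).card ≤ M) (m : ℕ) (h : m * M < Q.card) :
    ∃ κ : ℕ → V, (∀ q, κ q ∈ Q) ∧ ∀ q q', q < q' → q' < m → ¬ Bad (κ q) (κ q') := by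
  induction m with
  | zero =>
    have h1 : 0 < Q.card := by omega
    obtain ⟨x, hx⟩ := Finset.card_pos.1 h1
    exact ⟨fun _ => x, fun _ => hx, fun q q' _ h2 => absurd h2 (Nat.not_lt_zero _)⟩
  | succ m ih =>
    have h1 : m * M < Q.card := by
      rw [Nat.succ_mul] at h
      omega
    obtain ⟨κ, hκ, hb⟩ := ih h1
    have h2 : ((range m).biUnion (fun q => Q.filter (fun x => Bad (κ q) x))).card < Q.card := by
      refine lt_of_le_of_lt (card_biUnion_le_card_mul _ _ M fun q _ => hM (κ q)) ?_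
      rw [card_range]
      exact h1
    obtain ⟨x, hx, hx2⟩ := exists_mem_notMem_of_card_lt_card h2
    refine ⟨Function.update κ m x, fun q => ?_, fun q q' h3 h4 => ?_⟩
    · by_cases hq : q = m
      · rw [hq, Function.update_self]
        exact hx
      · rw [Function.update_of_ne hq]
        exact hκ q
    · rw [Function.update_of_ne (by omega : q ≠ m)]
      by_cases hq : q' = m
      · rw [hq, Function.update_self]
        intro hbad
        apply hx2
        rw [mem_biUnion]
        exact ⟨q, mem_range.2 (by omega), mem_filter.2 ⟨hx, hbad⟩⟩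
      · rw [Function.update_of_ne hq]
        exact hb q q' h3 (by omega)

variable {d : ℕ}

/-- the box -/
noncomputable def Bx (d N : ℕ) : Finset (Fin d → ℤ) := Fintype.piFinset fun _ => Finset.Icc (-(N : ℤ)) N

theorem mem_Bx {N : ℕ} {k : Fin d → ℤ} : k ∈ Bx d N ↔ ∀ u, |k u| ≤ N := by
  simp [Bx, Fintype.mem_piFinset, abs_le]

theorem card_Bx (N : ℕ) : (Bx d N).card = (2 * N + 1) ^ d := by
  rw [Bx, Fintype.card_piFinset, Finset.prod_const, Int.card_Icc, Finset.card_univ,
    Fintype.card_fin]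
  congr 1
  omega

/-- far apart -/
def far (r : ℕ) (x y : Fin d → ℤ) : Prop := ∃ u, 2 * (r : ℤ) < |x u - y u|

theorem far_symm {r : ℕ} {x y : Fin d → ℤ} (h : far r x y) : far r y x := by
  obtain ⟨u, hu⟩ := h
  exact ⟨u, by rwa [abs_sub_comm]⟩

open scoped Classical in
theorem card_near (r : ℕ) (Q : Finset (Fin d → ℤ)) (e f : Fin d → ℤ) :
    (Q.filter (fun x => ¬ far r (x + e) f)).card ≤ (4 * r + 1) ^ d := by
  have h1 : (Bx d (2 * r)).card = (4 * r + 1) ^ d := by
    rw [card_Bx]
    congr 1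
    ring
  rw [← h1]
  refine card_le_card_of_injOn (fun x => x + e - f) (fun x hx => ?_) (fun x _ y _ hxy => ?_)
  · rw [mem_coe, mem_filter] at hx
    have h2 := hx.2
    unfold far at h2
    push Not at h2
    rw [mem_coe, mem_Bx]
    intro u
    have h3 := h2 u
    push_cast
    exact h3
  · have h4 : x + e - f = y + e - f := hxy
    have h5 := sub_left_injective h4
    exact add_right_cancel h5

/-- the offset -/
def off (i j : Fin d) (lam : ℕ) {g : ℕ} (s : Fin g × Fin g) : Fin d → ℤ :=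
  Pi.single i ((lam : ℤ) * (s.1 : ℕ)) + Pi.single j ((lam : ℤ) * (s.2 : ℕ))

theorem off_i {i j : Fin d} (hij : i ≠ j) (lam : ℕ) {g : ℕ} (s : Fin g × Fin g) :
    off i j lam s i = (lam : ℤ) * (s.1 : ℕ) := by
  unfold off
  rw [Pi.add_apply, Pi.single_eq_same, Pi.single_eq_of_ne hij, add_zero]

theorem off_j {i j : Fin d} (hij : i ≠ j) (lam : ℕ) {g : ℕ} (s : Fin g × Fin g) :
    off i j lam s j = (lam : ℤ) * (s.2 : ℕ) := by
  unfold off
  rw [Pi.add_apply, Pi.single_eq_same, Pi.single_eq_of_ne hij.symm, zero_add]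

theorem off_bd {i j : Fin d} (hij : i ≠ j) {K g : ℕ} (s : Fin g × Fin g) (u : Fin d) :
    |off i j (K / g) s u| ≤ K := by
  have key : ∀ v : Fin g, |((K / g : ℕ) : ℤ) * (v : ℕ)| ≤ K := by
    intro v
    rw [abs_of_nonneg (by positivity)]
    have h1 : K / g * (v : ℕ) ≤ K / g * g := Nat.mul_le_mul_left _ v.2.le
    have h2 : K / g * g ≤ K := Nat.div_mul_le_self K g
    exact_mod_cast h1.trans h2
  by_cases h1 : u = i
  · rw [h1, off_i hij]
    exact key _
  · by_cases h2 : u = j
    · rw [h2, off_j hij]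
      exact key _
    · unfold off
      rw [Pi.add_apply, Pi.single_eq_of_ne h1, Pi.single_eq_of_ne h2, add_zero, abs_zero]
      positivity

theorem off_far {i j : Fin d} (hij : i ≠ j) {lam r : ℕ} (hl : 2 * r < lam) {g : ℕ}
    (s s' : Fin g × Fin g) (hs : s ≠ s') (κ : Fin d → ℤ) :
    far r (κ + off i j lam s) (κ + off i j lam s') := by
  have key : ∀ v w : Fin g, v ≠ w → 2 * (r : ℤ) < |(lam : ℤ) * (v : ℕ) - (lam : ℤ) * (w : ℕ)| := by
    intro v w hvw
    rw [← mul_sub, abs_mul, abs_of_nonneg (by positivity : (0 : ℤ) ≤ (lam : ℤ))]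
    have h1 : ((v : ℕ) : ℤ) - ((w : ℕ) : ℤ) ≠ 0 := by
      intro h2
      apply hvw
      apply Fin.ext
      omega
    have h2 : 1 ≤ |((v : ℕ) : ℤ) - ((w : ℕ) : ℤ)| := Int.one_le_abs h1
    have h3 : (2 * (r : ℤ)) < lam := by exact_mod_cast hl
    calc 2 * (r : ℤ) < lam := h3
      _ = lam * 1 := (mul_one _).symm
      _ ≤ _ := mul_le_mul_of_nonneg_left h2 (by positivity)
  by_cases h1 : s.1 = s'.1
  · have h2 : s.2 ≠ s'.2 := fun h => hs (Prod.ext h1 h)
    refine ⟨j, ?_⟩
    rw [Pi.add_apply, Pi.add_apply, off_j hij, off_j hij, add_sub_add_left_eq_sub]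
    exact key _ _ h2
  · refine ⟨i, ?_⟩
    rw [Pi.add_apply, Pi.add_apply, off_i hij, off_i hij, add_sub_add_left_eq_sub]
    exact key _ _ h1

open scoped Classical in
/-- double counting and pigeonhole -/
theorem dense {i j : Fin d} (hij : i ≠ j) {β : ℝ} (hβ : 0 < β) {g K : ℕ} (hg : 1 ≤ g)
    (I : Finset (Fin d → ℤ)) (hI : ∀ k ∈ I, ∀ u, |k u| ≤ K)
    (hc : β * (2 * K + 1 : ℕ) ^ d ≤ I.card) :
    ∃ (S : Finset (Fin g × Fin g)) (Q : Finset (Fin d → ℤ)),
      β / 2 ^ (d + 1) * (g : ℝ) ^ 2 ≤ S.card ∧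
      (∀ κ ∈ Q, ∀ s ∈ S, κ + off i j (K / g) s ∈ I) ∧
      β / 2 ^ (d + 1) * (4 * K + 1 : ℕ) ^ d ≤ 2 ^ (g ^ 2) * Q.card := by
  set D : Finset (Fin d → ℤ) := Bx d (2 * K) with hD
  have hDc : D.card = (4 * K + 1) ^ d := by
    rw [hD, card_Bx]
    congr 1
    ring
  set β' : ℝ := β / 2 ^ (d + 1) with hβ'
  have hβ'0 : 0 < β' := by positivity
  set Tt : (Fin d → ℤ) → Finset (Fin g × Fin g) := fun κ =>
    univ.filter (fun s => κ + off i j (K / g) s ∈ I) with hTt
  have hg0 : (0 : ℝ) < (g : ℝ) ^ 2 := by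
    have : (0 : ℝ) < g := by exact_mod_cast hg
    positivity
  -- lower bound for the sum
  have h1 : g ^ 2 * I.card ≤ ∑ κ ∈ D, (Tt κ).card := by
    have e1 : ∑ κ ∈ D, (Tt κ).card =
        ∑ s : Fin g × Fin g, (D.filter (fun κ => κ + off i j (K / g) s ∈ I)).card := by
      simp only [hTt, card_filter]
      exact sum_comm
    rw [e1]
    have e2 : ∀ s : Fin g × Fin g,
        I.card ≤ (D.filter (fun κ => κ + off i j (K / g) s ∈ I)).card := by
      intro s
      refine card_le_card_of_injOn (fun k => k - off i j (K / g) s) (fun k hk => ?_)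
        (fun x _ y _ hxy => sub_left_injective hxy)
      rw [mem_coe] at hk
      rw [mem_coe, mem_filter, hD, mem_Bx]
      refine ⟨fun u => ?_, by rw [sub_add_cancel]; exact hk⟩
      have h2 := hI k hk u
      have h3 := off_bd hij (K := K) s u
      show |k u - off i j (K / g) s u| ≤ ((2 * K : ℕ) : ℤ)
      have h4 := abs_sub (k u) (off i j (K / g) s u)
      push_cast
      linarith
    calc g ^ 2 * I.card = ∑ _s : Fin g × Fin g, I.card := by
          rw [sum_const, card_univ, Fintype.card_prod, Fintype.card_fin, smul_eq_mul, sq]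
      _ ≤ _ := sum_le_sum fun s _ => e2 s
  -- the dense places
  set Q0 : Finset (Fin d → ℤ) := D.filter (fun κ => β' * (g : ℝ) ^ 2 ≤ ((Tt κ).card : ℝ)) with hQ0
  have h2 : (∑ κ ∈ D, ((Tt κ).card : ℝ)) ≤ (g : ℝ) ^ 2 * Q0.card + β' * (g : ℝ) ^ 2 * D.card := by
    have e1 : ∀ κ ∈ D, ((Tt κ).card : ℝ) ≤
        (if β' * (g : ℝ) ^ 2 ≤ ((Tt κ).card : ℝ) then (g : ℝ) ^ 2 else 0) + β' * (g : ℝ) ^ 2 := by
      intro κ _
      have e2 : ((Tt κ).card : ℝ) ≤ (g : ℝ) ^ 2 := by
        have e3 : (Tt κ).card ≤ g * g := by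
          refine (card_le_univ _).trans (le_of_eq ?_)
          rw [Fintype.card_prod, Fintype.card_fin]
        rw [sq]
        exact_mod_cast e3
      split_ifs with h3
      · have : 0 ≤ β' * (g : ℝ) ^ 2 := by positivity
        linarith
      · linarith [not_le.1 h3]
    refine (sum_le_sum e1).trans (le_of_eq ?_)
    rw [sum_add_distrib, ← sum_filter, sum_const, sum_const, nsmul_eq_mul, nsmul_eq_mul]
    ring
  have h3 : β' * D.card ≤ Q0.card := by
    have e1 : (g : ℝ) ^ 2 * I.card ≤ (g : ℝ) ^ 2 * Q0.card + β' * (g : ℝ) ^ 2 * D.card := by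
      refine le_trans ?_ h2
      exact_mod_cast h1
    have e2 : (I.card : ℝ) ≤ Q0.card + β' * D.card := by
      have e3 : (g : ℝ) ^ 2 * I.card ≤ (g : ℝ) ^ 2 * (Q0.card + β' * D.card) := by
        refine e1.trans (le_of_eq ?_)
        ring
      exact le_of_mul_le_mul_left e3 hg0
    have e4 : 2 * β' * D.card ≤ I.card := by
      refine le_trans ?_ hc
      rw [hDc, hβ']
      push_cast
      have e5 : ((4 : ℝ) * K + 1) ^ d ≤ 2 ^ d * (2 * K + 1) ^ d := by
        rw [← mul_pow]
        refine pow_le_pow_left₀ (by positivity) ?_ d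
        linarith
      calc 2 * (β / 2 ^ (d + 1)) * (4 * (K : ℝ) + 1) ^ d
          ≤ 2 * (β / 2 ^ (d + 1)) * (2 ^ d * (2 * K + 1) ^ d) := by gcongr
        _ = β * (2 * K + 1) ^ d := by
            rw [pow_succ]
            field_simp
    linarith
  -- pigeonhole
  obtain ⟨S, hS⟩ : ∃ S : Finset (Fin g × Fin g),
      Q0.card ≤ 2 ^ (g ^ 2) * (Q0.filter (fun κ => Tt κ = S)).card := by
    by_contra hcon
    push Not at hcon
    have e1 : Q0.card = ∑ S : Finset (Fin g × Fin g), (Q0.filter (fun κ => Tt κ = S)).card :=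
      card_eq_sum_card_fiberwise fun κ _ => mem_coe.2 (mem_univ _)
    have e2 : (univ : Finset (Finset (Fin g × Fin g))).card = 2 ^ (g ^ 2) := by
      rw [card_univ, Fintype.card_finset, Fintype.card_prod, Fintype.card_fin, sq]
    have e3 : 2 ^ (g ^ 2) * Q0.card < 2 ^ (g ^ 2) * Q0.card := by
      calc 2 ^ (g ^ 2) * Q0.card
          = ∑ S : Finset (Fin g × Fin g), 2 ^ (g ^ 2) * (Q0.filter (fun κ => Tt κ = S)).card := by
            rw [← mul_sum, ← e1]
        _ < ∑ _S : Finset (Fin g × Fin g), Q0.card :=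
            sum_lt_sum_of_nonempty univ_nonempty fun S _ => hcon S
        _ = 2 ^ (g ^ 2) * Q0.card := by rw [sum_const, e2, smul_eq_mul]
    exact lt_irrefl _ e3
  have h5 : 0 < Q0.card := by
    have e1 : (0 : ℝ) < Q0.card := by
      refine lt_of_lt_of_le ?_ h3
      rw [hDc]
      positivity
    exact_mod_cast e1
  have h6 : 0 < (Q0.filter (fun κ => Tt κ = S)).card := by
    rcases Nat.eq_zero_or_pos (Q0.filter (fun κ => Tt κ = S)).card with h7 | h7
    · rw [h7, mul_zero] at hS
      omega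
    · exact h7
  obtain ⟨κ₀, hκ₀⟩ := card_pos.1 h6
  rw [mem_filter, hQ0, mem_filter] at hκ₀
  refine ⟨S, Q0.filter (fun κ => Tt κ = S), ?_, ?_, ?_⟩
  · rw [← hκ₀.2]
    exact hκ₀.1.2
  · intro κ hκ s hs
    rw [mem_filter] at hκ
    rw [← hκ.2, hTt] at hs
    exact (mem_filter.1 hs).2
  · refine le_trans (le_trans (le_of_eq ?_) h3) ?_
    · rw [hDc]
      push_cast
      ring
    · exact_mod_cast hS

open scoped Classical in
/-- **Job SH-POS.** -/
theorem pos : Pool.Agent.Y990.SH.S_pos := by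
  intro d i j β g m J r hij hβ _ hg
  set β' : ℝ := β / 2 ^ (d + 1) with hβ'
  have hβ'0 : 0 < β' := by positivity
  set M1 : ℕ := g ^ 4 * (4 * r + 1) ^ d with hM1
  set M2 : ℕ := (4 * r + 1) ^ d with hM2
  set A1 : ℝ := 2 ^ (g ^ 2) * ((m * M1 : ℕ) : ℝ) / β' with hA1
  set A2 : ℝ := ((g ^ 2 * m * M2 + J * M2 : ℕ) : ℝ) / β with hA2
  refine ⟨g * (2 * r + 1) + (⌈A1⌉₊ + 1) + (⌈A2⌉₊ + 1), fun K hK I hI hc => ?_⟩
  have hd : d ≠ 0 := by
    have := i.2
    omega
  have hlam : 2 * r < K / g := by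
    have h1 : g * (2 * r + 1) ≤ K := by omega
    have h2 : 2 * r + 1 ≤ K / g := (Nat.le_div_iff_mul_le (by omega)).2 (by rw [mul_comm]; exact h1)
    omega
  have hKA1 : A1 < K := by
    refine lt_of_le_of_lt (Nat.le_ceil A1) ?_
    have : ⌈A1⌉₊ < K := by omega
    exact_mod_cast this
  have hKA2 : A2 < K := by
    refine lt_of_le_of_lt (Nat.le_ceil A2) ?_
    have : ⌈A2⌉₊ < K := by omega
    exact_mod_cast this
  obtain ⟨S, Q, hS, hQ, hQc⟩ := dense hij hβ hg I hI hc
  -- the size of `Q`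
  have hQ1 : m * M1 < Q.card := by
    have e1 : (K : ℝ) ≤ ((4 * K + 1 : ℕ) : ℝ) ^ d := by
      have e2 : K ≤ (4 * K + 1) ^ d :=
        le_trans (by omega) (Nat.le_self_pow hd _)
      exact_mod_cast e2
    have e3 : 2 ^ (g ^ 2) * ((m * M1 : ℕ) : ℝ) < 2 ^ (g ^ 2) * Q.card := by
      calc 2 ^ (g ^ 2) * ((m * M1 : ℕ) : ℝ) = β' * A1 := by
            rw [hA1]
            field_simp
        _ < β' * K := by gcongr
        _ ≤ β' * ((4 * K + 1 : ℕ) : ℝ) ^ d := by gcongr
        _ ≤ _ := hQc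
    have e4 : ((m * M1 : ℕ) : ℝ) < Q.card := lt_of_mul_lt_mul_left e3 (by positivity)
    exact_mod_cast e4
  have hI1 : g ^ 2 * m * M2 + J * M2 < I.card := by
    have e1 : (K : ℝ) ≤ ((2 * K + 1 : ℕ) : ℝ) ^ d := by
      have e2 : K ≤ (2 * K + 1) ^ d :=
        le_trans (by omega) (Nat.le_self_pow hd _)
      exact_mod_cast e2
    have e4 : ((g ^ 2 * m * M2 + J * M2 : ℕ) : ℝ) < I.card := by
      calc ((g ^ 2 * m * M2 + J * M2 : ℕ) : ℝ) = β * A2 := by
            rw [hA2]
            field_simp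
        _ < β * K := by gcongr
        _ ≤ β * ((2 * K + 1 : ℕ) : ℝ) ^ d := by gcongr
        _ ≤ _ := hc
    exact_mod_cast e4
  -- the targets
  set Bad : (Fin d → ℤ) → (Fin d → ℤ) → Prop := fun κ κ' =>
    ∃ s s' : Fin g × Fin g, ¬ far r (κ' + off i j (K / g) s') (κ + off i j (K / g) s) with hBad
  have hBc : ∀ y, (Q.filter (fun x => Bad y x)).card ≤ M1 := by
    intro y
    have e1 : Q.filter (fun x => Bad y x) ⊆
        (univ : Finset ((Fin g × Fin g) × (Fin g × Fin g))).biUnion (fun p =>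
          Q.filter (fun x => ¬ far r (x + off i j (K / g) p.2) (y + off i j (K / g) p.1))) := by
      intro x hx
      rw [mem_filter] at hx
      obtain ⟨hx1, s, s', hx2⟩ := hx
      rw [mem_biUnion]
      exact ⟨(s, s'), mem_univ _, mem_filter.2 ⟨hx1, hx2⟩⟩
    refine (card_le_card e1).trans ?_
    refine (card_biUnion_le_card_mul _ _ ((4 * r + 1) ^ d) fun p _ => card_near r Q _ _).trans ?_
    rw [card_univ, Fintype.card_prod, Fintype.card_prod, Fintype.card_fin, hM1]
    apply le_of_eq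
    ring
  obtain ⟨κ, hκQ, hκB⟩ := greedy Q Bad M1 (fun y => by convert hBc y) m hQ1
  -- the references
  set I' : Finset (Fin d → ℤ) := I.filter (fun x => ∀ (s : Fin g × Fin g) (q : Fin m),
    far r x (κ q + off i j (K / g) s)) with hI'
  have hI'c : J * M2 < I'.card := by
    have e1 : (I.filter (fun x => ¬ ∀ (s : Fin g × Fin g) (q : Fin m),
        far r x (κ q + off i j (K / g) s))).card ≤ g ^ 2 * m * M2 := by
      have e2 : I.filter (fun x => ¬ ∀ (s : Fin g × Fin g) (q : Fin m),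
          far r x (κ q + off i j (K / g) s)) ⊆
          (univ : Finset ((Fin g × Fin g) × Fin m)).biUnion (fun p =>
            I.filter (fun x => ¬ far r (x + 0) (κ p.2 + off i j (K / g) p.1))) := by
        intro x hx
        rw [mem_filter] at hx
        obtain ⟨hx1, hx2⟩ := hx
        push Not at hx2
        obtain ⟨s, q, hx3⟩ := hx2
        rw [mem_biUnion]
        refine ⟨(s, q), mem_univ _, mem_filter.2 ⟨hx1, ?_⟩⟩
        rw [add_zero]
        exact hx3
      refine (card_le_card e2).trans ?_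
      refine (card_biUnion_le_card_mul _ _ M2 fun p _ => card_near r I _ _).trans ?_
      rw [card_univ, Fintype.card_prod, Fintype.card_prod, Fintype.card_fin, Fintype.card_fin]
      apply le_of_eq
      ring
    have e3 := card_filter_add_card_filter_not (s := I) (fun x => ∀ (s : Fin g × Fin g) (q : Fin m),
        far r x (κ q + off i j (K / g) s))
    rw [← hI'] at e3
    omega
  have hBc2 : ∀ y, (I'.filter (fun x => (fun a b : Fin d → ℤ => ¬ far r b a) y x)).card ≤ M2 := by
    intro y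
    have e1 := card_near r I' 0 y
    simp only [add_zero] at e1
    exact e1
  obtain ⟨l, hlI, hlB⟩ := greedy I' (fun a b => ¬ far r b a) M2
    (fun y => by convert hBc2 y) J hI'c
  have hlI2 : ∀ q, l q ∈ I ∧ ∀ (s : Fin g × Fin g) (q' : Fin m),
      far r (l q) (κ q' + off i j (K / g) s) := fun q => by
    have := hlI q
    rw [hI', mem_filter] at this
    exact this
  have hps : ∀ (s : Fin g × Fin g) (q : Fin m),
      ps (J := J) i j (K / g) (fun q : Fin m => κ q) (fun q : Fin J => l q) (Sum.inl (s, q)) =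
        κ q + off i j (K / g) s := by
    intro s q
    show κ q + Pi.single i (((K / g : ℕ) : ℤ) * (s.1 : ℕ)) +
      Pi.single j (((K / g : ℕ) : ℤ) * (s.2 : ℕ)) = κ q + off i j (K / g) s
    rw [add_assoc]
    rfl
  refine ⟨S, fun q => κ q, fun q => l q, hS, ?_, fun q => (hlI2 q).1, ?_⟩
  · intro s hs q
    rw [hps]
    exact hQ _ (hκQ q) s hs
  · have key : ∀ t t' : Idx g m J, t ≠ t' →
        far r (ps i j (K / g) (fun q : Fin m => κ q) (fun q : Fin J => l q) t)
          (ps i j (K / g) (fun q : Fin m => κ q) (fun q : Fin J => l q) t') := by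
      have hTT : ∀ (s s' : Fin g × Fin g) (q q' : Fin m), q < q' →
          far r (κ q + off i j (K / g) s) (κ q' + off i j (K / g) s') := by
        intro s s' q q' hqq
        have h1 := hκB q q' hqq q'.2
        rw [hBad] at h1
        push Not at h1
        exact far_symm (h1 s s')
      have hRR : ∀ (q q' : Fin J), q < q' → far r (l q) (l q') := by
        intro q q' hqq
        have h1 := hlB q q' hqq q'.2
        exact far_symm (not_not.1 h1)
      rintro (⟨s, q⟩ | q) (⟨s', q'⟩ | q') hne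
      · rw [hps, hps]
        rcases lt_trichotomy q q' with h1 | h1 | h1
        · exact hTT s s' q q' h1
        · subst h1
          have h2 : s ≠ s' := by
            rintro rfl
            exact hne rfl
          exact off_far hij hlam s s' h2 _
        · exact far_symm (hTT s' s q' q h1)
      · rw [hps]
        exact far_symm ((hlI2 q').2 s q)
      · rw [hps]
        exact (hlI2 q).2 s' q'
      · rcases lt_trichotomy q q' with h1 | h1 | h1
        · exact hRR q q' h1
        · exact absurd (congrArg Sum.inr h1) hne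
        · exact far_symm (hRR q' q h1)
    intro t t' hne
    exact key t t' hne

end Pool.Agent.Y884.SH
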